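import Pool.Agent.Run7.h562.ND.Unir

/-!
# Nonvanishing for pseudo-effective canonical divisors: images of products with an arbitrary factor

Let `V = X × Y`, where `X` and `Y` are smooth projective varieties over `ℂ` of dimensions `d` and `n`.
There is no condition on `Y`. Let `V ⇢ W` be a dominant rational map of finite degree to a variety
`W`. It need not be related to the product structure, and it need not be the quotient by a group. Let
`H_0, ..., H_{k-1}` be linear systems on `X`, let `W_i` be the image of `V` in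
`W × ℙ^(m_0) × ... × ℙ^(m_{i-1})`, and let `d_i` be the degree of `W_{i+1} → W_i`. Suppose that
`V ⇢ W_k` is birational (general points of `V` with the same image in `W` are separated by the
systems on `X`), and that `N K_X - ∑ M_i H_i` is effective for some `N ≥ 1` and
`M_i > 2 N (d_i - 1)`. Then

* `K_W` is `ℚ`-effective if and only if `K_Y` is; `K_W` is pseudo-effective if and only if `K_Y` is;
* so the statement of Q1 holds for `W` if and only if it holds for `Y`;
* if `Y` is uniruled then `W` is uniruled; if `W` is uniruled then `K_Y` is not pseudo-effective;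
* `κ(W) ≤ d + κ(Y)`, `ν(W) ≤ d + ν(Y)`, and if the systems contain `s` algebraically independent
  functions then `κ(W) ≥ s + κ(Y)`, `ν(W) ≥ s + ν(Y)` (so there is equality if `s = d`).

Both sides of Q1 are invariant under bimeromorphic maps of smooth manifolds, so this is about all
compact complex manifolds in class `𝒞` which are bimeromorphic to such a projective variety `W`. In
particular Q1 holds for all these manifolds, of every dimension, if `dim Y ≤ 3` (Miyaoka, Kawamata; this
last remark is not part of the Lean proof).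

Method. Upper bounds: a section of `m K_V + A` on the product is a combination, over the function
field of `X`, of sections of `m K_Y + A'`, with `A'` independent of `m`. Lower bounds: exterior
products `η^s ∧ τ` of a positive multicanonical form on `X` with sections `τ` of `m K_Y + A`,
multiplied by monomials in the systems, and their norms down to `W` (`Run7.h72.tower_ind`).
-/

set_option autoImplicit false
set_option linter.overlappingInstances false
set_option linter.unusedSectionVars false
set_option linter.unusedVariables false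

open FF IntermediateField Module

namespace Pool.Agent.Results.MP_813db1_ag.ImagesOfProductsAnyFactor

open Pool.Agent.W602.GT (Divisorial RegAt IsPluri)
open Pool.Agent.W619.TW (NumLe NumNeg KodGe)
open Pool.Agent.W619.PQ (IsUniruled)
open Run7.h72 (mlt Lv)

/-- `ν (K_X) = -∞` for the function field `K` of `X` of dimension `d`: for each divisor `A`, no
large multiple `m K_X + A` has a section (`K_X` is not pseudo-effective). -/
def NuNeg (K : Type) [Field K] [Algebra ℂ K] (d : ℕ) : Prop := NumNeg ℂ K d fun _ => False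

/-- `ν (K_X) ≤ h`: for each divisor `A` there is `C` with `h⁰ (m K_X + A) ≤ C m ^ h` for all
`m ≥ 1`. -/
def NuLe (K : Type) [Field K] [Algebra ℂ K] (d h : ℕ) : Prop := NumLe ℂ K d (fun _ => False) h

/-- `κ (X) ≥ a`: there is `m ≥ 1` with `h⁰ (j m K_X) ≥ j ^ a` for all `j ≥ 1`. -/
def KapGe (K : Type) [Field K] [Algebra ℂ K] (d a : ℕ) : Prop := KodGe ℂ K d (fun _ => False) a

/-- The statement of Q1 for `X`: `K_X` is pseudo-effective if and only if it is `ℚ`-effective. -/
def NonVanishing (K : Type) [Field K] [Algebra ℂ K] (d : ℕ) : Prop := ¬ NuNeg K d ↔ KapGe K d 0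

/-- `N K_X - ∑ M_i H_i` is effective, where `H_i` is the linear system spanned by the functions
`x i b` (with `x i 0 = 1`): there is an `N`-canonical form `η ≠ 0` such that all products
`∏ (x i (f i)) ^ M_i * η` are regular along all prime divisors (on all models). -/
def SysEff {E : Type} [Field E] [Algebra ℂ E] (d N : ℕ) {k : ℕ} {m : Fin k → ℕ}
    (x : ∀ i, Fin (m i + 1) → E) (M : Fin k → ℕ) : Prop :=
  ∃ η : (Fin d → Derivation ℂ E E) → E, IsPluri N η ∧ (∃ D, η D ≠ 0) ∧
    ∀ f, ∀ P : Place ℂ E, Divisorial d P → RegAt P fun D => mlt x M f * η D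

/-- **Images of products.** `L ⊆ K` are the function fields of `W` and `V = X × Y`, and `E`, `F` those
of `X`, `Y`; the field `Lv L x i` is the function field of the image `W_i` of `V` in
`W × ℙ^(m_0) × ... × ℙ^(m_(i-1))`, and the condition `hM` is `M_i > 2 N (deg (W_(i+1) → W_i) - 1)`. -/
theorem result {K L : Type} [Field K] [Field L] [Algebra ℂ K] [Algebra ℂ L] [Algebra L K]
    [IsScalarTower ℂ L K] [FiniteDimensional L K] [Algebra.EssFiniteType ℂ K]
    {E F : IntermediateField ℂ K} [Algebra.EssFiniteType ℂ E] [Algebra.EssFiniteType ℂ F]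
    (hsup : E ⊔ F = ⊤) {d n : ℕ} (hE : Algebra.trdeg ℂ E = d) (hn : Algebra.trdeg ℂ F = n)
    (hK : Algebra.trdeg ℂ K = (d + n : ℕ)) {k : ℕ} {m : Fin k → ℕ}
    (x : ∀ i, Fin (m i + 1) → E) (hx0 : ∀ i, x i 0 = 1)
    (hgen : Lv L (fun i b => (x i b : K)) k = ⊤) {N : ℕ} (hN : 1 ≤ N) (M : Fin k → ℕ)
    (hM : ∀ i : Fin k, 2 * (finrank L (Lv L (fun i b => (x i b : K)) (i + 1)) -
      finrank L (Lv L (fun i b => (x i b : K)) i)) * N <
        M i * finrank L (Lv L (fun i b => (x i b : K)) i))
    (heff : SysEff d N x M) :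
    (KapGe L (d + n) 0 ↔ KapGe F n 0) ∧ (NuNeg L (d + n) ↔ NuNeg F n) ∧
    (NonVanishing L (d + n) ↔ NonVanishing F n) ∧
    (IsUniruled ℂ F n → IsUniruled ℂ L (d + n)) ∧ (IsUniruled ℂ L (d + n) → NuNeg F n) ∧
    (∀ h, NuLe F n h → NuLe L (d + n) (d + h)) ∧ (∀ a, KapGe L (d + n) (d + a) → KapGe F n a) ∧
    ∀ (s : ℕ) (q : Fin s → (i : Fin k) × Fin (m i + 1)),
      (AlgebraicIndependent ℂ fun a => x (q a).1 (q a).2) →
      (∀ h, NuLe L (d + n) (s + h) → NuLe F n h) ∧
      (∀ a, KapGe F n a → KapGe L (d + n) (s + a)) := by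
  obtain ⟨η, hη, hη0, hreg⟩ := heff
  have hL : Algebra.trdeg ℂ L = (d + n : ℕ) := Pool.Agent.Y184.NT.trdeg_below (K := K) hK
  have hessL : Algebra.EssFiniteType ℂ L := Pool.Agent.TH466.QG.ess_below (K := K)
  have hmain := fun (s : ℕ) (q : Fin s → (i : Fin k) × Fin (m i + 1))
      (hq : AlgebraicIndependent ℂ fun a => x (q a).1 (q a).2) =>
    Pool.Agent.Run7.h562.ND.main hsup hE hn hK x hx0 hgen hN M hM hη hη0 hreg q hq
  obtain ⟨h1, h2, -, h4, -, h6⟩ := hmain 0 Fin.elim0
    ((algebraicIndependent_empty_type_iff).2 (algebraMap ℂ E).injective)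
  have h7 : IsUniruled ℂ F n → IsUniruled ℂ L (d + n) :=
    Pool.Agent.Run7.h562.ND.unir_prod hsup hE hn hK
  have h8 : IsUniruled ℂ L (d + n) → NuNeg L (d + n) := fun h =>
    (Pool.Agent.W619.Y.uniruled_neg (d + n) hL h).2
  refine ⟨h2, h1, iff_congr (not_congr h1) h2, h7, fun h => h1.1 (h8 h), h4, h6, fun s q hq => ?_⟩
  obtain ⟨-, -, h3, -, h5, -⟩ := hmain s q hq
  exact ⟨h3, h5⟩

end Pool.Agent.Results.MP_813db1_ag.ImagesOfProductsAnyFactor
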