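import Pool.Agent.Run7.h528.NR.Main
import Pool.Agent.Run7.h528.NR.Eff
import Pool.Agent.Run7.h528.NN.Log
import Pool.Agent.N110.RK.Stat
import Pool.Agent.N110.Can
import Pool.Agent.N110.IM.Main
import Pool.Agent.N110.NV.Fin
import Pool.Agent.R887.Exc

/-!
Varieties which are dominated by a variety with a nilpotent group of birational self-maps of large
growth rank: nonvanishing.
-/

set_option autoImplicit false

open FF Pool.Agent.W602.GT Pool.Agent.Y172 Pool.Agent.R887 Pool.Agent.N110 Run7.h528.NR
open Run7.h528.NN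

/-- Let `X` be a projective manifold of dimension `n ≥ 1`, with generic point `y` (or a normal
projective variety with canonical singularities); `K_X` is not assumed to be nef. Suppose that `X` is
dominated by a normal projective variety `X'`: there is a dominant rational map `X' ⇢ X`, generically
finite, given by the homomorphism `π` of the function fields. Let `f_1, ..., f_r` be birational
self-maps of `X'` which generate a nilpotent group `G` (not necessarily abelian); they may contract
divisors, and they have nothing to do with the map `X' ⇢ X`. Suppose that `X'` has canonical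
singularities (then nothing more is assumed of `G`), or that the elements of `G` preserve `K_X' + Δ'`
for an effective `ℚ`-divisor `Δ'` on `X'` (over the prime divisors of `X'` the divisor
`g^* (K_X' + Δ')` is at most `K_X' + Δ'`). Let `s ≥ 1` be at most the growth rank: for `v` in
`ℤ ^ r` let `D(v)` be the degree `g_v^* H · H ^ (n - 1)` of the map `g_v` of `X'` with
`g_v^* = f_1^* ^ (v_1) ... f_r^* ^ (v_r)` (a product in this order); `D` grows subexponentially only
along linear subspaces of `ℝ ^ r` of codimension at least `s`. For instance `s = r ≥ 1` if `D(v)` is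
at least `c exp (δ |v|)` for some `c, δ > 0`.

Then `s ≤ n - 1`, and the numerical dimension of `K_X` and the Kodaira dimension of `X` are at most
`n - 1 - s`; they are equal if the Kodaira dimension is at least `n - 1 - s`. If `s = n - 1`, then `K_X`
is pseudo-effective if and only if it is numerically equivalent to an effective `ℚ`-divisor, whatever
the irregularity of `X` is (so `κ (X) ≥ 0` by a theorem of Campana and Peternell, which is not
formalised here; the hypothesis `NeronSeveri y`, used only for this, is the theorem of Néron and Severi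
that the group of the divisors modulo numerical equivalence is finitely generated). If `s = n - 1` and the
irregularity of `X` is zero, then `K_X` is pseudo-effective if and only if it is `ℚ`-effective, that
is, some multiple `m K_X`, `m ≥ 1`, has a section `ω ≠ 0`; and in this case the Kodaira dimension of
`X` is zero, and so is the numerical dimension, also the one defined by the number of the sections of
`m K_X + A`. -/
theorem Pool.Agent.Results.MP_813db1_ag.NilpotentNonvanishing.result
    {K K' : Type} [Field K] [Algebra ℂ K] [Field K'] [Algebra ℂ K'] {N N' n : ℕ}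
    {y : Fin (N + 1) → K} {y' : Fin (N' + 1) → K'} (hy : NormalModel y) (hy' : NormalModel y')
    (hn : Algebra.trdeg ℂ K = n) (hn' : Algebra.trdeg ℂ K' = n) (hn0 : 0 < n)
    (hcan : Canonical y n) (π : K →ₐ[ℂ] K')
    {Δ' : Place ℂ K' → ℚ} (hΔ' : Effective y' Δ') {r s : ℕ} (hs : 0 < s)
    (f : Fin r → (K' ≃ₐ[ℂ] K')) (hnil : Group.IsNilpotent (Subgroup.closure (Set.range f)))
    (hP : (∀ g ∈ Subgroup.closure (Set.range f), PullLe g y' n Δ') ∨ (Δ' = 0 ∧ Canonical y' n))
    (hrank : GrowthRankGe (nprod f) y' n s ∨ (s = r ∧ ExpGrowth (nprod f) y' n)) :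
    s < n ∧ NumDimLt y n 0 (n - s) ∧ ¬ KappaGe y n 0 (n - s) ∧
      (KappaGe y n 0 (n - s - 1) → Abundant y n 0) ∧
      (s + 1 = n → NeronSeveri y →
        (LogPsef y n 0 ↔ ∃ D : Place ℂ K → ℚ, Effective y D ∧ NumEq y n 0 D)) ∧
      (s + 1 = n → IrregularityZero y →
        ((∃ m : ℕ, 1 ≤ m ∧ ∃ ω : (Fin n → Derivation ℂ K K) → K, ω ≠ 0 ∧ IsSection y n m 0 ω) ↔
          LogPsef y n 0) ∧
        (LogPsef y n 0 → kodairaDim y n 0 = ((0 : ℕ) : WithBot ℕ) ∧
          ∀ A, Effective y A → Integral y A → numericalDim y n 0 A = ((0 : ℕ) : EReal))) := by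
  have hz : {P : Place ℂ K | IsPrimeDivisor y P ∧ (0 : Place ℂ K → ℚ) P ≠ 0}.Finite :=
    Set.finite_empty.subset (by rintro P ⟨-, h⟩; exact h rfl)
  have hP' : ∀ g ∈ Subgroup.closure (Set.range f), PullLe g y' n Δ' := by
    rcases hP with h | ⟨rfl, hcan'⟩
    · exact h
    · exact fun g _ => pullLe_canonical hy' hn' hcan' g
  have hrank' : GrowthRankGe (nprod f) y' n s := by
    rcases hrank with h | ⟨rfl, h⟩
    · exact h
    · exact RK.growthRank_of_exp h
  obtain ⟨h1, h2'⟩ := nil_main hy' hn' hn0 hΔ'.2 hs f hnil hP' hrank'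
  have h2 := IM.numDimLt_can hy hy' hn hn' hcan hΔ'.1 π (Nat.sub_le _ _) h2'
  refine ⟨h1, h2, ?_, fun h => ⟨n - s - 1, h, ?_⟩, fun h3 hN => ?_, fun h3 hq => ?_⟩
  · rintro ⟨m, hm, ω, E, hω, h0, hind⟩
    exact kappa_lt hy hn (Nat.sub_le _ _) h2 hm hω h0 hind
  · rwa [show n - s - 1 + 1 = n - s by omega]
  · rw [show n - s = 1 by omega] at h2
    refine ⟨fun hps => ?_, fun ⟨D, hD, hE⟩ => psef_of_num hD hE.1⟩
    obtain ⟨D, hD, hE, -⟩ := num_eff hy hn hn0 hN hz hps h2
    exact ⟨D, hD, hE⟩
  · rw [show n - s = 1 by omega] at h2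
    refine ⟨⟨?_, fun hpsef => ?_⟩, fun hpsef => ?_⟩
    · rintro ⟨m, hm, ω, hω0, hω⟩
      exact psef_of_section hm hω0 (by rwa [smul_zero])
    · obtain ⟨m, hm, ω, hω0, hω⟩ := NV.nonvanishing hy hn hn0 hz hpsef h2 hq
      exact ⟨m, hm, ω, hω0, by rwa [smul_zero] at hω⟩
    · obtain ⟨m, hm, ω, hω0, hω⟩ := NV.nonvanishing hy hn hn0 hz hpsef h2 hq
      exact abundance_zero hy hn hn0 ⟨fun _ _ => le_rfl, hz⟩ h2 hm hω hω0
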