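import Pool.Agent.Run7.h323.PS.Main

set_option autoImplicit false

/-!
# Non-vanishing for covers of toric bundles over quotients of complex tori, algebraic or not

Let `X = V / Γ` be the quotient of a complex torus of dimension at most `g`, algebraic or not, by a
finite group, such that `V → X` is unramified in codimension one. Let `Y → X` be a toric bundle: the
fibre is the smooth complete toric variety of dimension `n` with the rays `u i`, and the twists are
given by arbitrary line bundles `c i` on `X`. Let `Δ` be an effective divisor with rational
coefficients on `Y`, `m (K_Y + Δ)` integral, such that `(Y, Δ)` is log canonical on some fibre. Let `M`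
be a compact complex manifold with `dim M = dim Y` and `f : M → Y` a holomorphic map which lifts
locally to `V × (ℂ^ι minus a closed set)`, is a local isomorphism on a dense open subset, and whose
branch divisor is contained in some divisor `F' = 0` (and the divisors `D_l`) of `Y`. Suppose that
`a K_M` is linearly equivalent to `f^* (b m (K_Y + Δ))` for some `a`, `b`. Examples are the finite
covers `M` of `Y` ramified uniformly along the components of a divisor with normal crossings. These
`M` are of class `C`, and they are not Moishezon if the torus is not algebraic.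

The theorem says that `K_M` is pseudoeffective if and only if it is effective over the rational
numbers, and that in this case `H^0(M, a N K_M) ≠ 0` for a number `N` which depends only on the fan,
`g`, `m` and the class of `m Δ` on the fibres of `Y → X`, but not on the torus, the group, the line
bundles `c i`, `Δ`, `M`, `f` and `b`. It also says that all this holds if and only if the
restriction of `K_Y + Δ` to the fibres of `Y → X` is effective, a condition on finitely many numbers.

The proof of the hard direction uses a maximum principle. If the restriction of `K_Y + Δ` to the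
fibres is not effective, then by the lemma of Farkas some relation `∑ τ_l u_l = 0`, `τ_l ≥ 0`, has
negative degree on it. Let `x0` be the Cox coordinates of the image of a point of `M` where the
weight `w` of the singular metric is positive, and consider the curve
`s ↦ (v, (x0_l (1 - s / r_l) ^ τ_l)_l)` in the fibre of `Y`, with different `r_l`. The product of a
power of `w` with the equations of the branch divisor and of the `D_l` on the curve is a function on
the points `(s, z)`, `z` a point of `M` over the point `s` of the curve, which tends to zero as `s`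
tends to infinity (as the degree is negative) or to a point of the divisors; to see this we show that
the torus of the Cox coordinates acts properly. So, after multiplication with `exp(η |s| ^ 2)`, it
has a maximum, where `f` is a local isomorphism, and the curve lifts to `M` there. This contradicts
the strict maximum principle for the lifted disc.

If the restriction is effective, the log canonicity of a fibre gives products of powers of the
coefficients of the equation of `m Δ` which are sections of the line bundles of the coefficients,
twisted by a torsion line bundle of bounded order (there is no ramification).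

The definitions are in `Pool.Agent.Run7.h323.PS.Defs` (`IsLogPsh`, `IsPsef`, `HasSec`, `IsCpt`,
`IsOff`, `IsCover`), `Pool.Agent.Run7.h323.TQ.Defs` (`LiftedMap`, `IsPullback`),
`Pool.Agent.Q47.TB.Defs` (`IsSmoothFan`, `LinEquiv`, `IsSection`, `IsLogPluricanonical`,
`IsLogCanonical`), `Pool.Agent.Q47.FJ.Defs` and `DefsT` (`Atlas`, `LB`, `IsSec`, `ZeroY`,
`IsCanonical`). The others are in `Pool.Agent.W594.SYZ.Defs2`, `Pool.Agent.W594.SYZ.TQDefs` and
`Pool.Agent.TH735.AQ.MirDefs`.
-/

namespace Pool.Agent.Results.MP_813db1_ag.ToricBundles

open Pool.Agent.W594.SYZ2 MvPolynomial Q47.FJ Run7.h323.TQ Run7.h323.PS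
open Pool.Agent.TH735.AQ (OnMirror IsRamification)
open Q47.TB (IsSmoothFan LinEquiv IsLogPluricanonical IsLogCanonical)

/-- `X = V / Γ` is the quotient of a complex torus of dimension at most `g` by a finite group,
unramified in codimension one, `Hc i` and `H` are the Chern forms of the line bundles `c i` and `L`,
`F` defines the effective divisor `m Δ` on the toric bundle `Y → X` of the `c i`,
`O_Y(m (K_Y + Δ)) = O_Y(d - m (1, ..., 1); L)`, and the restriction of `(Y, Δ)` to some fibre is log
canonical. -/
structure IsPair {V : Type} [NormedAddCommGroup V] [NormedSpace ℂ V] {ι : Type} [Fintype ι] {n : ℕ}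
    (u : ι → Fin n → ℤ) (S : Set (Set ι)) (g : ℕ) (Γ : Subgroup (V ≃ᵃ[ℂ] V)) (ρ : V → ℂ)
    (c : ι → LineBundle Γ) (Hc : ι → V → V → ℂ) (m : ℕ) (d : ι → ℤ) (F : V → MvPolynomial ι ℂ)
    (L : LineBundle Γ) (H : V → V → ℂ) : Prop where
  dim : Module.finrank ℂ V ≤ g
  torus : IsTorusQuotient Γ
  unramified : ∀ v, ¬ OnMirror Γ v
  ram : IsRamification Γ ρ
  chern : ∀ i, IsChernForm (c i) (Hc i)
  log : IsLogPluricanonical u c m ρ d F L
  lc : ∃ v, IsLogCanonical S m (F v)
  chernL : IsChernForm L H

/-- Let `(Y, Δ)` be a pair as above, and let `M` be a compact complex manifold which is a generically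
finite cover of `Y`, `f : M → Y`, such that `a K_M` is linearly equivalent to
`f^* (b m (K_Y + Δ))`. Then the following are equivalent: `K_M` is pseudoeffective;
`H^0(M, a N K_M) ≠ 0`; `H^0(M, k K_M) ≠ 0` for some `k > 0`; the restriction of `K_Y + Δ` to the fibres
of `Y → X` is effective over the rational numbers. Here `N` depends only on the fan, `g`, `m` and
`d`. -/
theorem result {ι : Type} [Fintype ι] {n : ℕ} (u : ι → Fin n → ℤ) (S : Set (Set ι))
    (hS : IsSmoothFan u S) (g m : ℕ) (hm : 1 ≤ m) (d : ι → ℤ) :
    ∃ N : ℕ, 1 ≤ N ∧
      ∀ (V : Type) [NormedAddCommGroup V] [NormedSpace ℂ V] [FiniteDimensional ℂ V]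
        (Γ : Subgroup (V ≃ᵃ[ℂ] V)) (ρ : V → ℂ) (c : ι → LineBundle Γ) (Hc : ι → V → V → ℂ)
        (F : V → MvPolynomial ι ℂ) (L : LineBundle Γ) (H : V → V → ℂ),
        IsPair u S g Γ ρ c Hc m d F L H →
        ∀ (E I K : Type) [NormedAddCommGroup E] [NormedSpace ℂ E] [FiniteDimensional ℂ E]
          (M : Atlas E I K) (κ : LB M), IsCpt M → (∃ i, (M.U i).Nonempty) → IsCanonical κ →
          ∀ (f : LiftedMap M u S c) (F' : V → MvPolynomial ι ℂ), IsCover f F' →
          ∀ a b : ℕ, 1 ≤ a → 1 ≤ b →
            (IsPullback f (κ ^ a) (fun l => b * (d l - m)) fun γ v => L.e γ v ^ b) →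
            [IsPsef κ, HasSec (κ ^ (a * N)), ∃ k : ℕ, 1 ≤ k ∧ HasSec (κ ^ k),
              ∃ k : ℕ, 1 ≤ k ∧ ∃ β : ι → ℕ, LinEquiv u (fun l => (β l : ℤ))
                fun l => k * (d l - m)].TFAE := by
  obtain ⟨N, hN, h⟩ := main hS g m hm d
  refine ⟨N, hN, fun V _ _ _ Γ ρ c Hc F L H hP E I K _ _ _ M κ hM hne _ f F' hf a b ha hb hA => ?_⟩
  obtain ⟨v₀, hlc⟩ := hP.lc
  exact h ⟨V, hP.dim, Γ, hP.torus, c, Hc, hP.chern, ρ, hP.ram, F, L, hP.log, H, hP.chernL, v₀, hlc⟩
    hP.unramified E I K M hM hne f F' hf κ a b ha hb hA

end Pool.Agent.Results.MP_813db1_ag.ToricBundles
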