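import Pool.Agent.Run7.h260.TW.Prd

/-!
# Nonvanishing for the images of towers over products with a curve

A product tower of dimension `n` with the bound `s` (`ProductTower c n K s`) is a sequence of dominant
rational maps of finite degree `V = V_0 ⇢ V_1 ⇢ ... ⇢ V_k` between varieties of dimension `n` over `ℂ`. At
the step `V_i ⇢ V_(i + 1)`, of degree `b_i`, the canonical bundle of `V_i` is positive relative to
`V_(i + 1)` (`Positive`): `V_(i + 1)` is the image of `V_i` in a projective space, and for all varieties
`Y'`, `V_i ⇢ Y' ⇢ V_(i + 1)`, of degree `> 1` over `V_(i + 1)` there is a section of `K_(V_i) - m H` with a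
nonzero trace on `Y'`, where `s_i ≤ [V_i : Y'] (m + 1)`; for instance cyclic coverings of prime degree
branched along a sufficiently positive divisor. The bounds are `s_0 = s`, `s_(i + 1) = ⌊s_i / b_i⌋`. The
last variety `V_k`, with the bound `s_k`, is

* a product `X_0 × ... × X_(t - 1) × C` (`IsProduct`), where `C` is any smooth projective curve, and each
  `X_i` has a number `g_i > s_k` and is either a curve of gonality at least `g_i` or a variety in
  projective `(M + 1)`-space which is cut out by equations of degree at most `D` and has the regular
  canonical forms `P(x) ω₀` for all forms `P` of degree `m` (for instance a smooth complete intersection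
  of codimension at least two), `m ≥ 7 N + 4`, `(M + 1) N < m + M + 2`, `D + N ≤ m + 2`,
  `g_i ≤ (N + 1) (m + 2 - N)` for some `N` (`Factor`); `t = 0` is allowed; or
* a smooth hypersurface of degree `d` in `ℙ^(n + 1)`, where for some `N` one has `d ≥ 7 N + n + 6`,
  `d > (n + 1) N`, `d > c (N + n - 1)` and `s_k < (N + 1) (d - n - N)`; or a variety with a generically
  finite map of any degree to a variety of low degree as above, `s_k < (N + 1) (m + 2 - N)`; or
* any uniruled variety, without condition on `s_k`.

**Theorem.** Let `V` be the first variety of such a tower, and let `W` be a variety with a dominant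
rational map `V ⇢ W` of degree `r`. The map is arbitrary: not a quotient by a group, not related to the
tower, with any ramification. (1) If the bound is `s = r` (and `c = 2`): `K_W` is pseudo-effective if
and only if it is `ℚ`-effective, and then it is effective: `H⁰(W, K_W) ≠ 0`. (2) If the bound is `s = 2 r`
(and `c = 3`): `K_W` is pseudo-effective if and only if it is `ℚ`-effective, and then `κ(W) ≥ dim W - 1`:
either `K_W` is big, or `κ(W) = dim W - 1`.

So Q1 has a positive answer for all compact manifolds `X` (they are Moishezon, hence in class `𝒞`) which
are bimeromorphic to such a `W`, with the two stronger forms of the conclusion.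

The engine (towers over products) and the proof of the equivalences are helper260's
(`Pool/Agent/Run7/h260/TW/*`), who handed it in as `MP_e06174_ag.ImagesOfProductTowers` and
`MP_9a2ae6_ag.ImagesOfProductTowers`; this file states the two together, for the question of nonvanishing.
The towers over uniruled varieties and the products themselves are in the starting files
(`R882.Over.factors_step`, `N162.GQ.mprod_genus`).
-/

set_option autoImplicit false

open FF Pool.Agent.W602.GT
open Pool.Agent.R882.Over (GenusZero)
open Pool.Agent.Run7.h260.TW (ProductTower)

namespace Pool.Agent.Results.MP_813db1_ag.TowersOverProducts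

/-- **Nonvanishing for the images of towers over products.** Let `K` be the function field of the first
variety `V` of a tower of dimension `n ≥ 1` over a product of varieties of low degree, curves of large
gonality and an arbitrary curve, over a smooth hypersurface or a covering of a variety of low degree,
or over a uniruled variety, and let `L ⊆ K` be the function field of `W`, `r = [K : L]`. (1) If the
tower has the bound `r` then `K_W` is pseudo-effective if and only if `κ(W) ≥ 0`, if and only if
`p_g(W) ≠ 0`. (2) If it has the bound `2 r` then `K_W` is pseudo-effective if and only if `κ(W) ≥ 0`, if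
and only if `κ(W) ≥ n - 1`. -/
theorem result {n : ℕ} (hn : 1 ≤ n) {K : Type} [Field K] [Algebra ℂ K] [Algebra.EssFiniteType ℂ K]
    (hK : Algebra.trdeg ℂ K = n) (L : Type) [Field L] [Algebra ℂ L] [Algebra L K]
    [IsScalarTower ℂ L K] [FiniteDimensional L K] :
    (ProductTower 2 n K (Module.finrank L K) →
      [Psef ℂ L n (fun _ => False), KodGe ℂ L n (fun _ => False) 0, ¬ GenusZero L n].TFAE) ∧
    (ProductTower 3 n K (2 * Module.finrank L K) →
      [Psef ℂ L n (fun _ => False), KodGe ℂ L n (fun _ => False) 0,
        KodGe ℂ L n (fun _ => False) (n - 1)].TFAE) := by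
  refine ⟨fun h => ?_, fun h => ?_⟩
  · have h1 := Pool.Agent.Run7.h260.TW.ptower_genus L hn hK le_rfl le_rfl h
    have h2 : GenusZero L n ↔ ¬ KodGe ℂ L n (fun _ => False) 0 := h1.out 0 1
    have h3 : GenusZero L n ↔ ¬ Psef ℂ L n (fun _ => False) := h1.out 0 2
    tfae_have 1 → 3 := fun h4 h5 => h3.1 h5 h4
    tfae_have 3 → 2 := fun h4 => by
      by_contra h5
      exact h4 (h2.2 h5)
    tfae_have 2 → 1 := fun h4 => psef_of_kodGe h4
    tfae_finish
  · have h1 := Pool.Agent.Run7.h260.TW.ptower_dich L hn hK le_rfl le_rfl h
    have h2 : Psef ℂ L n (fun _ => False) ↔ KodGe ℂ L n (fun _ => False) (n - 1) := h1.out 0 1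
    tfae_have 1 → 3 := h2.1
    tfae_have 3 → 2 := fun h4 => Pool.Agent.Run7.h260.TW.kodGe_mono (Nat.zero_le _) h4
    tfae_have 2 → 1 := fun h4 => psef_of_kodGe h4
    tfae_finish

end Pool.Agent.Results.MP_813db1_ag.TowersOverProducts
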